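import Pool.Agent.Work.MP_c95a57_al.Bd.B01
import Pool.Agent.Work.MP_c95a57_al.Bd.B02

/-!
# The theorem
-/

namespace MLTG

theorem final : ∃ (G : Type) (_ : Group G), Group.IsFinitelyPresented G ∧
    ∀ S : Set G, S.Finite → Subgroup.closure S = ⊤ →
      ∀ (X : Type) [MetricSpace X] (f : G → X), IsQI S f → ¬ HasMLTG X := by
  have hW : ClaimW := thm_W
  have hX : ClaimX := thm_X
  have hE : ClaimE := thm_E
  have hFP : ClaimFP := thm_FP
  have hR : ClaimR := thm_R hFP
  have hW2 : ClaimW2 := thm_W2 hW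
  have hL : ClaimL := thm_L hW hX hR
  have hG : ClaimG := thm_G hW hX hE hR hFP
  have hC1 : ClaimC1 := thm_C1 hR hFP
  have hC2 : ClaimC2 := thm_C2 hC1 hG hW hX
  have hS : ClaimS := thm_S hC1 hC2 hR hFP
  have hV : ClaimV := thm_V hFP
  have hB : ClaimB := thm_B hW hX hC2 hS hV hL hR hFP
  have hA : ClaimA := thm_A hW hX hB hC1 hC2 hR hFP
  have hMA : ClaimMA := thm_MA hW
  have hCG : ClaimCG := thm_CG hW
  have hMB : ClaimMB := thm_MB
  have hZ : ClaimZ := thm_Z hW hCG hMA hMB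
  exact final_of thm_P hX hW2 hA hZ

end MLTG
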