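import Mathlib

/-!
# The Morse local-to-global property: definitions

`IsQG`, `IsMorse`, `IsLocalMorse`, `HasMLTG` are the notions of the problem for a (pseudo)metric
space `X`; a map from the interval `[a, b]` to `X` is given by a map `ℝ → X`, of which only the
values on `[a, b]` matter.

The group: `D = F(d, e)`, `F = F(x, d, e)`, `Φ = F(x, y, d, e)`, `T = F(t_x, t_d, t_e)`,
`M = Φ ⋊ T`, `N = F ⋊ T`.
-/

open Set

namespace MLTG

/-! ## Metric notions -/

section metric

variable {X : Type*} [PseudoMetricSpace X]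

/-- `γ` restricted to `[a, b]` is a `(lam, eps)`-quasi-geodesic. -/
def IsQG (γ : ℝ → X) (a b lam eps : ℝ) : Prop :=
  ∀ s ∈ Icc a b, ∀ t ∈ Icc a b,
    |s - t| / lam - eps ≤ dist (γ s) (γ t) ∧ dist (γ s) (γ t) ≤ lam * |s - t| + eps

/-- `γ` restricted to `[a, b]` is `M`-Morse: every quasi-geodesic `η : [c, d] → X` with endpoints
on `γ` stays in the closed `M(lam, eps)`-neighbourhood of `γ`. -/
def IsMorse (M : ℝ → ℝ → ℝ) (γ : ℝ → X) (a b : ℝ) : Prop :=
  ∀ lam eps : ℝ, 1 ≤ lam → 0 ≤ eps → ∀ (η : ℝ → X) (c d : ℝ), c ≤ d → IsQG η c d lam eps →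
    η c ∈ γ '' Icc a b → η d ∈ γ '' Icc a b →
    ∀ t ∈ Icc c d, Metric.infDist (η t) (γ '' Icc a b) ≤ M lam eps

/-- `γ : [a, b] → X` is an `(L; M; lam, eps)`-local Morse quasi-geodesic. -/
def IsLocalMorse (L : ℝ) (M : ℝ → ℝ → ℝ) (lam eps : ℝ) (γ : ℝ → X) (a b : ℝ) : Prop :=
  ∀ s t : ℝ, a ≤ s → s ≤ t → t ≤ b → t - s ≤ L → IsQG γ s t lam eps ∧ IsMorse M γ s t

end metric

/-- The Morse local-to-global property. -/
def HasMLTG (X : Type*) [PseudoMetricSpace X] : Prop :=
  ∀ (M : ℝ → ℝ → ℝ), (∀ l e, 0 ≤ M l e) → ∀ lam eps : ℝ, 1 ≤ lam → 0 ≤ eps →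
    ∃ (L : ℝ) (M' : ℝ → ℝ → ℝ) (lam' eps' : ℝ), 0 ≤ L ∧ (∀ l e, 0 ≤ M' l e) ∧ 1 ≤ lam' ∧
      0 ≤ eps' ∧ ∀ (γ : ℝ → X) (a b : ℝ), a ≤ b → IsLocalMorse L M lam eps γ a b →
        IsQG γ a b lam' eps' ∧ IsMorse M' γ a b

/-! ## Word metrics -/

/-- Word length with respect to `S`. -/
noncomputable def wordLen {G : Type*} [Group G] (S : Set G) (g : G) : ℕ :=
  sInf {n | ∃ l : List G, l.length = n ∧ (∀ a ∈ l, a ∈ S ∨ a⁻¹ ∈ S) ∧ l.prod = g}

/-- Word distance. -/
noncomputable def wordDist {G : Type*} [Group G] (S : Set G) (g h : G) : ℕ := wordLen S (g⁻¹ * h)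

/-- `f` is a quasi-isometry from `G` with the word metric to `X`. -/
def IsQI {G : Type*} [Group G] (S : Set G) {X : Type*} [PseudoMetricSpace X] (f : G → X) : Prop :=
  ∃ K : ℝ, 1 ≤ K ∧ (∀ g h, (wordDist S g h : ℝ) / K - K ≤ dist (f g) (f h) ∧
    dist (f g) (f h) ≤ K * wordDist S g h + K) ∧ ∀ x, ∃ g, dist x (f g) ≤ K

/-- One step in the Cayley graph (or no step). -/
def Adj {G : Type*} [Group G] (S : Set G) (g h : G) : Prop :=
  g = h ∨ ∃ s : G, (s ∈ S ∨ s⁻¹ ∈ S) ∧ h = g * s

/-- A path of length `n`. -/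
def IsPath {G : Type*} [Group G] (S : Set G) (n : ℕ) (p : ℕ → G) : Prop :=
  ∀ i < n, Adj S (p i) (p (i + 1))

/-! ## Extension of an action by a stable letter -/

section ext

variable {α : Type} {T : Type} [Group T]

/-- The inclusion of free groups. -/
def ii : FreeGroup α →* FreeGroup (Option α) := FreeGroup.map some

/-- The stable letter. -/
def yy : FreeGroup (Option α) := FreeGroup.of none

/-- Cocycles. -/
structure Coc (φ : T →* MulAut (FreeGroup α)) where
  u : T → FreeGroup α
  mul : ∀ s t, u (s * t) = u s * φ s (u t)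

theorem Coc.one {φ : T →* MulAut (FreeGroup α)} (c : Coc φ) : c.u 1 = 1 := by
  have h := c.mul 1 1
  rw [mul_one, map_one, MulAut.one_apply] at h
  exact (mul_eq_left.mp h.symm)

/-- The endomorphism of `FreeGroup (Option α)` extending `φ t` and mapping `y` to `y * u t`. -/
def extEnd (φ : T →* MulAut (FreeGroup α)) (c : Coc φ) (t : T) :
    FreeGroup (Option α) →* FreeGroup (Option α) :=
  FreeGroup.lift fun o => match o with
    | none => yy * ii (c.u t)
    | some a => ii (φ t (FreeGroup.of a))

theorem extEnd_yy (φ : T →* MulAut (FreeGroup α)) (c : Coc φ) (t : T) :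
    extEnd φ c t yy = yy * ii (c.u t) := by
  simp [extEnd, yy]

theorem extEnd_ii (φ : T →* MulAut (FreeGroup α)) (c : Coc φ) (t : T) (f : FreeGroup α) :
    extEnd φ c t (ii f) = ii (φ t f) := by
  have h : (extEnd φ c t).comp ii = ii.comp (φ t).toMonoidHom := by
    ext a
    simp [extEnd, ii]
  exact DFunLike.congr_fun h f

theorem extEnd_mul (φ : T →* MulAut (FreeGroup α)) (c : Coc φ) (s t : T)
    (g : FreeGroup (Option α)) : extEnd φ c (s * t) g = extEnd φ c s (extEnd φ c t g) := by
  have h : extEnd φ c (s * t) = (extEnd φ c s).comp (extEnd φ c t) := by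
    apply FreeGroup.ext_hom
    intro o
    cases o with
    | none =>
      show extEnd φ c (s * t) yy = extEnd φ c s (extEnd φ c t yy)
      rw [extEnd_yy, extEnd_yy, map_mul, extEnd_yy, extEnd_ii, c.mul, map_mul, mul_assoc]
    | some a =>
      show extEnd φ c (s * t) (FreeGroup.of (some a)) =
        extEnd φ c s (extEnd φ c t (FreeGroup.of (some a)))
      have h1 : (FreeGroup.of (some a) : FreeGroup (Option α)) = ii (FreeGroup.of a) := by
        simp [ii]
      rw [h1, extEnd_ii, extEnd_ii, extEnd_ii, map_mul, MulAut.mul_apply]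
  rw [h]
  rfl

theorem extEnd_one (φ : T →* MulAut (FreeGroup α)) (c : Coc φ) (g : FreeGroup (Option α)) :
    extEnd φ c 1 g = g := by
  have h : extEnd φ c 1 = MonoidHom.id _ := by
    apply FreeGroup.ext_hom
    intro o
    cases o with
    | none =>
      show extEnd φ c 1 yy = yy
      rw [extEnd_yy, c.one, map_one, mul_one]
    | some a =>
      show extEnd φ c 1 (FreeGroup.of (some a)) = FreeGroup.of (some a)
      have h1 : (FreeGroup.of (some a) : FreeGroup (Option α)) = ii (FreeGroup.of a) := by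
        simp [ii]
      rw [h1, extEnd_ii, map_one, MulAut.one_apply]
  rw [h]
  rfl

/-- The extended action. -/
def ext (φ : T →* MulAut (FreeGroup α)) (c : Coc φ) : T →* MulAut (FreeGroup (Option α)) where
  toFun t :=
    { toFun := extEnd φ c t
      invFun := extEnd φ c t⁻¹
      left_inv := fun g => by rw [← extEnd_mul, inv_mul_cancel, extEnd_one]
      right_inv := fun g => by rw [← extEnd_mul, mul_inv_cancel, extEnd_one]
      map_mul' := map_mul _ }
  map_one' := by
    apply MulEquiv.ext
    intro g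
    exact extEnd_one φ c g
  map_mul' s t := by
    apply MulEquiv.ext
    intro g
    exact extEnd_mul φ c s t g

theorem ext_yy (φ : T →* MulAut (FreeGroup α)) (c : Coc φ) (t : T) :
    ext φ c t yy = yy * ii (c.u t) := extEnd_yy φ c t

theorem ext_ii (φ : T →* MulAut (FreeGroup α)) (c : Coc φ) (t : T) (f : FreeGroup α) :
    ext φ c t (ii f) = ii (φ t f) := extEnd_ii φ c t f

variable [DecidableEq α]

/-- The part of the reduced word before the first stable letter. -/
def pre (k : FreeGroup (Option α)) : FreeGroup α :=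
  FreeGroup.mk ((k.toWord.takeWhile fun l => l.1.isSome).filterMap
    fun l => l.1.map fun a => (a, l.2))

/-- The sign of the first stable letter of the reduced word (`none` if there is none). -/
def sgn (k : FreeGroup (Option α)) : Option Bool :=
  ((k.toWord.dropWhile fun l => l.1.isSome).head?).map Prod.snd

/-- The stable letter or its inverse. -/
def yp (b : Bool) : FreeGroup (Option α) := if b then yy else yy⁻¹

/-- The retraction of `F(Option α) ⋊ T` onto `F(α) ⋊ T`. -/
def ret (φ : T →* MulAut (FreeGroup α)) (c : Coc φ)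
    (g : SemidirectProduct (FreeGroup (Option α)) T (ext φ c)) :
    SemidirectProduct (FreeGroup α) T φ :=
  ⟨if sgn g.left = some false then pre g.left * c.u g.right else pre g.left, g.right⟩

/-- The section of `F(α) ⋊ T → T` given by the cocycle. -/
def sec (φ : T →* MulAut (FreeGroup α)) (c : Coc φ) (t : T) :
    SemidirectProduct (FreeGroup α) T φ := ⟨c.u t, t⟩

end ext

/-! ## The group -/

/-- `T = F(t_x, t_d, t_e)`; indices: `none` is `x`, `some false` is `d`, `some true` is `e`. -/
abbrev TT : Type := FreeGroup (Option Bool)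
/-- `D = F(d, e)`; `false` is `d` and `true` is `e`. -/
abbrev DD : Type := FreeGroup Bool
/-- `F = F(x, d, e)`; `none` is `x`. -/
abbrev FF : Type := FreeGroup (Option Bool)
/-- `Φ = F(y, x, d, e)`; `none` is `y`, `some none` is `x`. -/
abbrev PP : Type := FreeGroup (Option (Option Bool))

/-- The words `e`, `d e d⁻¹`, `d² e d⁻²`. -/
def ww : Option Bool → DD
  | none => FreeGroup.of true
  | some false => FreeGroup.of false * FreeGroup.of true * (FreeGroup.of false)⁻¹
  | some true => FreeGroup.of false ^ 2 * FreeGroup.of true * (FreeGroup.of false ^ 2)⁻¹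

/-- The homomorphism `η : T → D`. -/
def eta : TT →* DD := FreeGroup.lift ww

/-- Trivial action of `T` on `D`. -/
def act0 : TT →* MulAut DD := 1

/-- `η` as a cocycle. -/
def coc0 : Coc act0 where
  u := eta
  mul s t := by rw [map_mul]; rfl

/-- Action of `T` on `F`: `x ↦ x * η t`. -/
def act1 : TT →* MulAut FF := ext act0 coc0

/-- `N = F ⋊ T`. -/
abbrev NN : Type := SemidirectProduct FF TT act1

/-- The homomorphism `t_z ↦ (z, t_z)` from `T` to `N`. -/
def iota : TT →* NN := FreeGroup.lift fun z => (⟨FreeGroup.of z, FreeGroup.of z⟩ : NN)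

theorem iota_right (t : TT) : (iota t).right = t := by
  have h : (SemidirectProduct.rightHom : NN →* TT).comp iota = MonoidHom.id _ := by
    apply FreeGroup.ext_hom
    intro z
    simp [iota, SemidirectProduct.rightHom]
  exact DFunLike.congr_fun h t

/-- The cocycle `u` with `u (t_z) = z`. -/
def coc1 : Coc act1 where
  u t := (iota t).left
  mul s t := by rw [map_mul, SemidirectProduct.mul_left, iota_right]

/-- Action of `T` on `Φ`: `y ↦ y * u t`. -/
def act2 : TT →* MulAut PP := ext act1 coc1

/-- The group `M = Φ ⋊ T`. -/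
abbrev MM : Type := SemidirectProduct PP TT act2

/-- The generator `y`. -/
def gy : MM := SemidirectProduct.inl yy
/-- The generators `x, d, e`. -/
def gz (z : Option Bool) : MM := SemidirectProduct.inl (ii (FreeGroup.of z))
/-- The generator `x`. -/
def gx : MM := gz none
/-- The generators `t_x, t_d, t_e`. -/
def gt (z : Option Bool) : MM := SemidirectProduct.inr (FreeGroup.of z)

/-- The generating set. -/
def SS : Set MM := {gy} ∪ range gz ∪ range gt

/-- The letter `x` of `F`. -/
def xx : FF := yy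

/-- The line `… x x x y x x x …`. -/
def lin (j : ℤ) : MM := if j ≤ 0 then gx ^ j else gy * gx ^ (j - 1)

/-- The retraction of `M` onto `N`. -/
def rho (g : MM) : NN := ret act1 coc1 g

/-- The `F`-element `k` lies beyond the edge from `x^q` to `x^(q+1)`. -/
def Pos (q : ℤ) (k : FF) : Prop := sgn (xx ^ (-q) * k) = some true ∧ pre (xx ^ (-q) * k) = 1

end MLTG
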